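import Pool.Agent.Helper74.LE.GoalsH

/-!
# Project LE, packet HF: the step from the products `T_x T_g' T_y` to `B x g y`.
-/

set_option autoImplicit false

open LaurentPolynomial Pool.Agent.Helper15.RA Pool.Agent.Helper45.AM

noncomputable section

namespace Pool.Agent.Helper12.LE.HF

open Pool.Agent.Helper74.LL Pool.Agent.Helper74.LE Pool.Agent.Helper74.LE.TE

section cox

variable {S W : Type} [Group W] {M : CoxeterMatrix S} (cs : CoxeterSystem M W)

theorem mem_par_single {i : S} {g : W} (h : g ∈ par cs ({i} : Set S)) : g = 1 ∨ g = cs.simple i := by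
  unfold par at h
  rw [Set.image_singleton] at h
  induction h using Subgroup.closure_induction with
  | mem x hx => exact Or.inr hx
  | one => exact Or.inl rfl
  | mul a b _ _ ha hb =>
    rcases ha with rfl | rfl <;> rcases hb with rfl | rfl <;> simp
  | inv a _ ha =>
    rcases ha with rfl | rfl <;> simp

theorem mem_par_empty {g : W} (h : g ∈ par cs (∅ : Set S)) : g = 1 := by
  unfold par at h
  simpa using h

theorem simple_mem_par {i : S} {P : Set S} (h : i ∈ P) : cs.simple i ∈ par cs P :=
  Subgroup.subset_closure ⟨i, h, rfl⟩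

theorem not_right {P : Set S} {x : W} {i : S} (h : XR cs P x) (hi : i ∈ P) : ¬ cs.IsRightDescent x i := by
  have := h i hi
  unfold CoxeterSystem.IsRightDescent
  omega

theorem not_left {P : Set S} {x : W} {i : S} (h : XL cs P x) (hi : i ∈ P) : ¬ cs.IsLeftDescent x i := by
  have := h i hi
  unfold CoxeterSystem.IsLeftDescent
  omega

end cox

theorem t (hgeo : Pool.Agent.Helper74.LL.GEO) (hwt : Pool.Agent.Helper74.LE.HWT) (hw0 : Pool.Agent.Helper74.LE.HW0)
    (hpb : Pool.Agent.Helper74.LE.HPB) (hbd : Pool.Agent.Helper74.LE.HBD) (hn : Pool.Agent.Helper74.LE.HN) :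
    Pool.Agent.Helper74.LE.HF := by
  classical
  intro S W H _ _ _ X M n hI hBP hUU x g y hadm hlen
  obtain ⟨hL1, -, -, -⟩ := hwt S W H X
  obtain ⟨hα1, hαi, -⟩ := hw0 S W H X
  obtain ⟨hN0, hNs, -⟩ := hn S W H X M n hBP
  obtain ⟨-, -, -, hc1, -, hcdeg, -, hcone, hcs, -⟩ := g_h2 S W H X.M X.cs X.L X.wt X.D
  have ht1 : X.D.t 1 = 1 := (g_h1 S W H X.M X.cs X.L X.D.toHecke1.toHecke0).1
  have hle : X.cs.length x + X.cs.length y ≤ n := by omega
  obtain ⟨I, hSm, hXR, hg, hXL⟩ := hadm
  -- the case `M < α g`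
  rcases lt_or_ge M (X.α g) with hM | hM
  · apply LP.of_Vm
    have hc : X.D.c g ∈ X.Vm M := by
      apply X.c_mem_Vm
      refine ⟨1, g, 1, I, hSm, hg, by simp, by simp, ?_⟩
      omega
    exact X.Vm_mul_right hI _ (X.Vm_mul_left hI _ hc)
  -- `g = 1`
  have case1 : g = 1 → X.LP M ((M : ℤ) - X.α g) (X.B x g y) := by
    rintro rfl
    unfold TE.B
    rw [hα1, hcone, mul_one]
    have := hN0 x y hle
    simpa using this
  -- `g = s_i`
  have case2 : ∀ i ∈ I, g = X.cs.simple i → X.LP M ((M : ℤ) - X.α g) (X.B x g y) := by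
    rintro i hi rfl
    unfold TE.B
    rw [hαi]
    exact hNs x y i (not_right X.cs hXR hi) (not_left X.cs hXL hi) hle
  rcases hSm with rfl | ⟨i, j, rfl⟩
  · exact case1 (mem_par_empty X.cs hg)
  by_cases hgi : g ∈ par X.cs ({i} : Set S)
  · rcases mem_par_single X.cs hgi with h | h
    · exact case1 h
    · exact case2 i (by simp) h
  by_cases hgj : g ∈ par X.cs ({j} : Set S)
  · rcases mem_par_single X.cs hgj with h | h
    · exact case1 h
    · exact case2 j (by simp) h
  have hij : i ≠ j := by
    rintro rfl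
    apply hgi
    simpa using hg
  have hSm : Sm ({i, j} : Set S) := Or.inr ⟨i, j, rfl⟩
  have hcsup : ∀ z, X.D.t.repr (X.D.c g) z ≠ 0 → z ∈ par X.cs ({i, j} : Set S) :=
    (Pool.Agent.Helper15.AM.k_as S W H X.toBase ({i, j} : Set S)).2.2.2.1 g hg
  set p : W → ℤ[T;T⁻¹] := fun k => X.D.t.repr (X.D.c g) k with hp
  have hpdeg : ∀ k ∈ par X.cs ({i, j} : Set S), DegLE ((X.L k : ℤ) - X.α g) (p k) := fun k hk =>
    hpb S W H X {i, j} g k hSm hg hk
  have hp0 : ∀ k, DegLE 0 (p k) := by
    intro k
    by_cases hk : k = g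
    · subst hk
      rw [hp]
      simp only
      rw [hc1]
      exact DegLE.one le_rfl
    · exact (hcdeg g k hk).mono (by norm_num)
  -- full `k`
  have hfull : ∀ k, Full X.cs i j k →
      X.LP M ((M : ℤ) - X.α g) (p k • (X.D.t x * X.D.t k * X.D.t y)) := by
    intro k hk
    by_cases hred : X.cs.length (x * k * y) = X.cs.length x + X.cs.length k + X.cs.length y
    · have h1 : X.D.t x * X.D.t k * X.D.t y = X.D.t (x * k * y) := by
        have h2 := X.cs.length_mul_le (x * k) y
        have h3 := X.cs.length_mul_le x k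
        have h4 : X.cs.length (x * k) = X.cs.length x + X.cs.length k := by omega
        rw [X.D.mul x k h4, X.D.mul (x * k) y (by omega)]
      rw [h1]
      by_cases hkg : k = g
      · subst hkg
        have h5 : p k = 1 := hc1 k
        rw [h5, one_smul]
        rcases eq_or_lt_of_le hM with h6 | h6
        · rw [← h6, sub_self]
          apply LP.t_of_ge
          exact ⟨x, k, y, {i, j}, hSm, hg, rfl, hred, le_rfl⟩
        · refine (LP.t M _).mono ?_
          have : (X.α k : ℤ) + 1 ≤ M := by exact_mod_cast h6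
          linarith
      · refine LP.t_smul (hcdeg g k hkg) ?_
        have : (X.α g : ℤ) ≤ M := by exact_mod_cast hM
        linarith
    · by_cases hpk : p k = 0
      · rw [hpk, zero_smul]
        exact LP.zero M _
      have hk3 : X.cs.length k ≤ 3 := by
        by_contra h4
        exact hred ((hgeo S W X.M X.cs ⟨X.fin, X.mat, X.big⟩ i j x k y hij hXR hk hXL).2 (by omega))
      obtain ⟨β, hβ, hdeg⟩ := hbd S W H X M i j g k hij ⟨hg, hgi, hgj⟩ hk hk3 hM hpk
      have h1 := hUU i j x k y β hij hXR hk hXL hβ hlen hred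
      exact LP.smul_le hdeg h1 (by linarith)
  -- the sum
  have hs1 : (1 : W) ≠ X.cs.simple i := by
    intro h
    have := congrArg X.cs.length h
    simp at this
  have hs2 : (1 : W) ≠ X.cs.simple j := by
    intro h
    have := congrArg X.cs.length h
    simp at this
  have hs3 : X.cs.simple i ≠ X.cs.simple j := by
    intro h
    exact hij ((Pool.Agent.Helper15.AM.k_gpb S W X.M X.cs).1 h)
  set E : Finset W := {1, X.cs.simple i, X.cs.simple j} with hE
  set F : Finset W := (X.D.t.repr (X.D.c g)).support ∪ E with hF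
  have hcsum : X.D.c g = ∑ k ∈ F, p k • X.D.t k := by
    conv_lhs => rw [← X.D.t.linearCombination_repr (X.D.c g)]
    rw [Finsupp.linearCombination_apply, Finsupp.sum]
    refine Finset.sum_subset Finset.subset_union_left fun k _ hk => ?_
    rw [Finsupp.notMem_support_iff.1 hk, zero_smul]
  have hB : X.B x g y = ∑ k ∈ F, p k • (X.D.t x * X.D.t k * X.D.t y) := by
    unfold TE.B
    rw [hcsum, Finset.mul_sum, Finset.sum_mul]
    refine Finset.sum_congr rfl fun k _ => ?_
    rw [mul_smul_comm, smul_mul_assoc]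
  rw [hB, ← Finset.sum_sdiff (Finset.subset_union_right : E ⊆ F)]
  refine LP.add (LP.sum fun k hk => ?_) ?_
  · rw [Finset.mem_sdiff] at hk
    by_cases hpk : p k = 0
    · rw [hpk, zero_smul]
      exact LP.zero M _
    · apply hfull
      refine ⟨hcsup k hpk, fun h => hk.2 ?_, fun h => hk.2 ?_⟩
      · rcases mem_par_single X.cs h with h | h <;> simp [hE, h]
      · rcases mem_par_single X.cs h with h | h <;> simp [hE, h]
  · have hsum : ∑ k ∈ E, p k • (X.D.t x * X.D.t k * X.D.t y) =
        p (X.cs.simple i) • (X.D.t x * X.D.c (X.cs.simple i) * X.D.t y) +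
        p (X.cs.simple j) • (X.D.t x * X.D.c (X.cs.simple j) * X.D.t y) +
        (p 1 - p (X.cs.simple i) * (T (-(X.L (X.cs.simple i) : ℤ)) : ℤ[T;T⁻¹]) -
          p (X.cs.simple j) * (T (-(X.L (X.cs.simple j) : ℤ)) : ℤ[T;T⁻¹])) • (X.D.t x * X.D.t y) := by
      rw [hE, Finset.sum_insert (by simp [hs1, hs2]), Finset.sum_insert (by simp [hs3]), Finset.sum_singleton]
      rw [hcs, hcs, ht1]
      simp only [mul_add, add_mul, mul_one, smul_add, sub_smul, mul_smul_comm, smul_mul_assoc, mul_smul]
      abel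
    rw [hsum]
    have hi1 : DegLE ((X.L (X.cs.simple i) : ℤ) - X.α g) (p (X.cs.simple i)) :=
      hpdeg _ (simple_mem_par X.cs (by simp))
    have hj1 : DegLE ((X.L (X.cs.simple j) : ℤ) - X.α g) (p (X.cs.simple j)) :=
      hpdeg _ (simple_mem_par X.cs (by simp))
    have h11 : DegLE (-(X.α g : ℤ)) (p 1) := by
      have := hpdeg 1 (Subgroup.one_mem _)
      rw [hL1] at this
      simpa using this
    refine LP.add (LP.add ?_ ?_) ?_
    · exact LP.smul_le hi1 (hNs x y i (not_right X.cs hXR (by simp)) (not_left X.cs hXL (by simp)) hle)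
        (by linarith)
    · exact LP.smul_le hj1 (hNs x y j (not_right X.cs hXR (by simp)) (not_left X.cs hXL (by simp)) hle)
        (by linarith)
    · refine LP.smul_le (k' := -(X.α g : ℤ)) ?_ (hN0 x y hle) (by linarith)
      refine (h11.sub ?_).sub ?_
      · exact hi1.mul_le (DegLE.T_le le_rfl) (by linarith)
      · exact hj1.mul_le (DegLE.T_le le_rfl) (by linarith)

end Pool.Agent.Helper12.LE.HF
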